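import Mathlib
set_option autoImplicit false
namespace Pool.Agent.Helper877.Cov

/-- every element of `G` is conjugate to an element of `A` -/
def Covers (G : Type) [Group G] (A : Subgroup G) : Prop :=
  ∀ x : G, ∃ g : G, g * x * g⁻¹ ∈ A



theorem covers_quot (G : Type) [Group G] (A : Subgroup G) (h : Covers G A) (N : Subgroup G) [N.Normal] :
    Covers (G ⧸ N) (A.map (QuotientGroup.mk' N)) := by
  intro x
  obtain ⟨y, rfl⟩ := QuotientGroup.mk'_surjective N x
  obtain ⟨g, hg⟩ := h y
  refine ⟨QuotientGroup.mk' N g, ?_⟩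
  rw [← map_inv, ← map_mul, ← map_mul]
  exact Subgroup.mem_map_of_mem _ hg

theorem covers_product (G : Type) [Group G] (A M : Subgroup G) [M.Normal] (h : Covers G A)
    (hA : ∀ a ∈ A, ∀ b ∈ A, a * b = b * a) (hM : ∀ a ∈ M, ∀ b ∈ M, a * b = b * a)
    (hAM : A ⊔ M = ⊤) : A = ⊤ := by
  have hMA : M ≤ A := by
    intro m hm
    obtain ⟨g, hg⟩ := h m
    obtain ⟨c, hc⟩ : ∃ c, c = g * m * g⁻¹ := ⟨_, rfl⟩
    rw [← hc] at hg
    have hcM : c ∈ M := by
      rw [hc]
      exact Subgroup.Normal.conj_mem inferInstance m hm g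
    have hle : A ⊔ M ≤ Subgroup.centralizer {c} := by
      refine sup_le ?_ ?_
      · intro a ha
        rw [Subgroup.mem_centralizer_singleton_iff]
        exact hA a ha c hg
      · intro a ha
        rw [Subgroup.mem_centralizer_singleton_iff]
        exact hM a ha c hcM
    have hg1 : g⁻¹ ∈ Subgroup.centralizer {c} := hle (by rw [hAM]; trivial)
    rw [Subgroup.mem_centralizer_singleton_iff] at hg1
    have hm' : m = c := by
      have h1 : m = g⁻¹ * c * g := by rw [hc]; group
      rw [h1, hg1, mul_assoc, inv_mul_cancel, mul_one]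
    rw [hm']
    exact hg
  rw [← hAM]
  exact (sup_eq_left.2 hMA).symm

-- TARGET:

theorem covers_soluble (n : ℕ) : ∀ (G : Type) [Group G] (A : Subgroup G), derivedSeries G n = ⊥ →
    Covers G A → (∀ a ∈ A, ∀ b ∈ A, a * b = b * a) → A = ⊤ := by
  induction n with
  | zero =>
    intro G _ A h _ _
    rw [derivedSeries_zero] at h
    rw [eq_top_iff, h]
    exact bot_le
  | succ n ih =>
    intro G _ A h hc hA
    have hMn : (derivedSeries G n).Normal := inferInstance
    have hM : ∀ a ∈ derivedSeries G n, ∀ b ∈ derivedSeries G n, a * b = b * a := by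
      intro a ha b hb
      rw [derivedSeries_succ] at h
      have h1 := Subgroup.commutator_mem_commutator ha hb
      rw [h, Subgroup.mem_bot] at h1
      exact commutatorElement_eq_one_iff_mul_comm.mp h1
    have hQ := ih (G ⧸ derivedSeries G n) (A.map (QuotientGroup.mk' (derivedSeries G n))) (by
      rw [← map_derivedSeries_eq (QuotientGroup.mk'_surjective (derivedSeries G n)) n]
      rw [Subgroup.map_eq_bot_iff, QuotientGroup.ker_mk']) (covers_quot G A hc _) (by
      rintro _ ⟨a, ha, rfl⟩ _ ⟨b, hb, rfl⟩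
      rw [← map_mul, hA a ha b hb, map_mul])
    refine covers_product G A (derivedSeries G n) hc hA hM ?_
    rw [eq_top_iff]
    intro x _
    have hx : QuotientGroup.mk' (derivedSeries G n) x ∈ A.map (QuotientGroup.mk' (derivedSeries G n)) := by
      rw [hQ]
      exact Subgroup.mem_top _
    obtain ⟨a, ha, hax⟩ := hx
    have h2 : a⁻¹ * x ∈ derivedSeries G n := by
      rw [← QuotientGroup.eq]
      exact hax
    have h3 : x = a * (a⁻¹ * x) := by group
    rw [h3]
    exact Subgroup.mul_mem_sup ha h2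

-- TARGET:

theorem covers_sup_derived (G : Type) [Group G] (A : Subgroup G) (h : Covers G A)
    (hA : ∀ a ∈ A, ∀ b ∈ A, a * b = b * a) (n : ℕ) : A ⊔ derivedSeries G n = ⊤ := by
  have hsurj : Function.Surjective (QuotientGroup.mk' (derivedSeries G n)) :=
    QuotientGroup.mk'_surjective _
  have hbot : derivedSeries (G ⧸ derivedSeries G n) n = ⊥ := by
    rw [← map_derivedSeries_eq hsurj n, Subgroup.map_eq_bot_iff, QuotientGroup.ker_mk']
  have hcov := covers_quot G A h (derivedSeries G n)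
  have hcomm : ∀ a ∈ A.map (QuotientGroup.mk' (derivedSeries G n)),
      ∀ b ∈ A.map (QuotientGroup.mk' (derivedSeries G n)), a * b = b * a := by
    rintro _ ⟨a, ha, rfl⟩ _ ⟨b, hb, rfl⟩
    rw [← map_mul, ← map_mul, hA a ha b hb]
  have htop := covers_soluble n (G ⧸ derivedSeries G n)
    (A.map (QuotientGroup.mk' (derivedSeries G n))) hbot hcov hcomm
  have h2 := congrArg (Subgroup.comap (QuotientGroup.mk' (derivedSeries G n))) htop
  rw [Subgroup.comap_map_eq, QuotientGroup.ker_mk', Subgroup.comap_top] at h2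
  exact h2

-- TARGET:

theorem covers_perfect (G : Type) [Group G] (A : Subgroup G) (h : Covers G A)
    (hA : ∀ a ∈ A, ∀ b ∈ A, a * b = b * a) : derivedSeries G 2 = derivedSeries G 1 := by
  apply le_antisymm
  · exact derivedSeries_antitone G (by norm_num)
  · have hsup := covers_sup_derived G A h hA 2
    haveI : (derivedSeries G 2).Normal := derivedSeries_normal G 2
    have key : ∀ x : G, ∃ a ∈ A, (QuotientGroup.mk' (derivedSeries G 2)) x =
        (QuotientGroup.mk' (derivedSeries G 2)) a := by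
      intro x
      have hx : x ∈ A ⊔ derivedSeries G 2 := by rw [hsup]; trivial
      obtain ⟨a, ha, m, hm, e⟩ := Subgroup.mem_sup_of_normal_right.1 hx
      refine ⟨a, ha, ?_⟩
      have hm1 : (QuotientGroup.mk' (derivedSeries G 2)) m = 1 :=
        (QuotientGroup.eq_one_iff m).2 hm
      rw [← e, map_mul, hm1, mul_one]
    rw [derivedSeries_one, commutator_def, Subgroup.commutator_le]
    intro x _ y _
    obtain ⟨a, ha, ea⟩ := key x
    obtain ⟨b, hb, eb⟩ := key y
    rw [← QuotientGroup.eq_one_iff (N := derivedSeries G 2)]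
    change (QuotientGroup.mk' (derivedSeries G 2)) (x * y * x⁻¹ * y⁻¹) = 1
    have hc : (QuotientGroup.mk' (derivedSeries G 2)) a * (QuotientGroup.mk' (derivedSeries G 2)) b =
        (QuotientGroup.mk' (derivedSeries G 2)) b * (QuotientGroup.mk' (derivedSeries G 2)) a := by
      rw [← map_mul, ← map_mul, hA a ha b hb]
    rw [map_mul, map_mul, map_mul, map_inv, map_inv, ea, eb, hc]
    group

-- TARGET:

theorem covers_residually_soluble (G : Type) [Group G] (A : Subgroup G) (h : Covers G A)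
    (hA : ∀ a ∈ A, ∀ b ∈ A, a * b = b * a)
    (hres : ∀ g : G, g ≠ 1 → ∃ N : Subgroup G, ∃ _ : N.Normal, g ∉ N ∧ IsSolvable (G ⧸ N)) : A = ⊤ := by
  have hcomm : ∀ a b : G, a * b = b * a := by
    intro a b
    by_contra hab
    have hne : a * b * (b * a)⁻¹ ≠ 1 := by
      intro h1
      exact hab (mul_inv_eq_one.1 h1)
    obtain ⟨N, hN, hgN, hsol⟩ := hres _ hne
    obtain ⟨n, hn⟩ := hsol.solvable
    have hAc : ∀ x ∈ A.map (QuotientGroup.mk' N), ∀ y ∈ A.map (QuotientGroup.mk' N),
        x * y = y * x := by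
      rintro _ ⟨x, hx, rfl⟩ _ ⟨y, hy, rfl⟩
      rw [← map_mul, ← map_mul, hA x hx y hy]
    have htop := covers_soluble n (G ⧸ N) (A.map (QuotientGroup.mk' N)) hn (covers_quot G A h N) hAc
    have ha : (QuotientGroup.mk' N) a ∈ A.map (QuotientGroup.mk' N) := by
      rw [htop]; exact Subgroup.mem_top _
    have hb : (QuotientGroup.mk' N) b ∈ A.map (QuotientGroup.mk' N) := by
      rw [htop]; exact Subgroup.mem_top _
    have h2 := hAc _ ha _ hb
    apply hgN
    rw [← QuotientGroup.eq_one_iff]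
    change (QuotientGroup.mk' N) (a * b * (b * a)⁻¹) = 1
    rw [map_mul, map_inv, map_mul, map_mul, h2, mul_inv_cancel]
  rw [eq_top_iff]
  intro x _
  obtain ⟨g, hg⟩ := h x
  rwa [hcomm g x, mul_inv_cancel_right] at hg

open scoped commutatorElement

theorem G_e3_inv {G : Type} [Group G] (h : ∀ g : G, g ^ 3 = 1) (g : G) : g⁻¹ * g⁻¹ = g := by
  have : g * g * g = 1 := by
    have := h g
    rwa [pow_succ, pow_two] at this
  calc g⁻¹ * g⁻¹ = g⁻¹ * g⁻¹ * (g * g * g) := by rw [this, mul_one]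
    _ = g := by group

theorem G_e3_conj {G : Type} [Group G] (h : ∀ g : G, g ^ 3 = 1) (x g : G) :
    x * (g * x * g⁻¹) * (g⁻¹ * x * g) = 1 := by
  have h1 := h (x * g)
  have h3 := G_e3_inv h g
  have h4 : g * g = g⁻¹ := by
    have := G_e3_inv h g⁻¹
    simpa using this
  have h1' : x * g * (x * g) * (x * g) = 1 := by
    rwa [pow_succ, pow_two] at h1
  calc x * (g * x * g⁻¹) * (g⁻¹ * x * g) = x * g * x * (g⁻¹ * g⁻¹) * x * g := by group
    _ = x * g * (x * g) * (x * g) := by rw [h3]; group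
    _ = 1 := h1'

theorem G_e3_comm {G : Type} [Group G] (h : ∀ g : G, g ^ 3 = 1) (x g : G) :
    x * (g * x * g⁻¹) = (g * x * g⁻¹) * x := by
  have h1 := G_e3_conj h x g
  have h2 := G_e3_conj h x g⁻¹
  rw [inv_inv] at h2
  generalize hP : g * x * g⁻¹ = P at *
  generalize hQ : g⁻¹ * x * g = Q at *
  have e1 : P * Q = x⁻¹ := by
    rw [mul_assoc] at h1
    exact (inv_eq_of_mul_eq_one_right h1).symm
  have e2 : Q * P = x⁻¹ := by
    rw [mul_assoc] at h2
    exact (inv_eq_of_mul_eq_one_right h2).symm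
  have e3 : P * x⁻¹ = x⁻¹ * P := by
    calc P * x⁻¹ = P * (Q * P) := by rw [e2]
      _ = (P * Q) * P := by rw [mul_assoc]
      _ = x⁻¹ * P := by rw [e1]
  have e4 : Commute P x⁻¹ := e3
  have e5 : Commute P x := by simpa using e4.inv_right
  exact e5.eq.symm

section ring

variable {R : Type} [Ring R] {G : Type} [Group G] (ρ : G →* R) (h3 : (3 : R) = 0)
   (hρ : ∀ g, ρ g * ρ g + ρ g + 1 = 0)

include h3 hρ

theorem G_N_sq (g : G) : (ρ g - 1) * (ρ g - 1) = 0 := by
  have : (ρ g - 1) * (ρ g - 1) = (ρ g * ρ g + ρ g + 1) - 3 * ρ g := by noncomm_ring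
  rw [this, hρ, h3]; simp

theorem G_N_rel (g h : G) : (ρ g - 1) * (ρ h - 1) + (ρ h - 1) * (ρ g - 1) = 0 ∧
    (ρ h - 1) * (ρ g - 1) * (ρ h - 1) = 0 := by
  have haa := G_N_sq ρ h3 hρ g
  have hbb := G_N_sq ρ h3 hρ h
  have hab := G_N_sq ρ h3 hρ (g * h)
  have e0 : ρ (g * h) - 1 = (ρ g - 1) * (ρ h - 1) + (ρ g - 1) + (ρ h - 1) := by
    rw [map_mul]; noncomm_ring
  rw [e0] at hab
  generalize ρ g - 1 = a at *
  generalize ρ h - 1 = b at *
  have S : a*b*a*b + a*b*a + a*b + b*a*b + b*a = 0 := by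
    have : a*b*a*b + a*b*a + a*b + b*a*b + b*a = (a * b + a + b) * (a * b + a + b)
      - a * (b * b) - (a * a) * b - a * a - b * b := by noncomm_ring
    rw [this, hab, haa, hbb]; simp
  have e1 : a*b*a*b + a*b*a = 0 := by
    have : a*b*a*b + a*b*a = a * (a*b*a*b + a*b*a + a*b + b*a*b + b*a)
      - (a*a)*b*a*b - (a*a)*b*a - (a*a)*b := by noncomm_ring
    rw [this, S, haa]; simp
  have S2 : a * b + b * a * b + b * a = 0 := by
    have : a * b + b * a * b + b * a = (a*b*a*b + a*b*a + a*b + b*a*b + b*a)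
      - (a*b*a*b + a*b*a) := by noncomm_ring
    rw [this, S, e1]; simp
  have e2 : b * a * b = 0 := by
    have : b * a * b = (a * b + b * a * b + b * a) * b - a * (b * b) - b * a * (b * b) := by
      noncomm_ring
    rw [this, S2, hbb]; simp
  refine ⟨?_, e2⟩
  have : a * b + b * a = (a * b + b * a * b + b * a) - b * a * b := by noncomm_ring
  rw [this, S2, e2]; simp

theorem G_rho_inv (g : G) : ρ g⁻¹ = 1 - (ρ g - 1) := by
  have h1 : ρ g⁻¹ * ρ g = 1 := by rw [← map_mul]; simp
  have h2 : ρ g * (1 - (ρ g - 1)) = 1 := by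
    have := G_N_sq ρ h3 hρ g
    have e : ρ g * (1 - (ρ g - 1)) = 1 - (ρ g - 1) * (ρ g - 1) := by noncomm_ring
    rw [e, this]; simp
  calc ρ g⁻¹ = ρ g⁻¹ * (ρ g * (1 - (ρ g - 1))) := by rw [h2, mul_one]
    _ = 1 - (ρ g - 1) := by rw [← mul_assoc, h1, one_mul]

theorem G_rho_comm (g h : G) : ρ ⁅g, h⁆ = 1 - (ρ g - 1) * (ρ h - 1) := by
  rw [commutatorElement_def, map_mul, map_mul, map_mul, G_rho_inv ρ h3 hρ g, G_rho_inv ρ h3 hρ h]
  have haa := G_N_sq ρ h3 hρ g
  have hbb := G_N_sq ρ h3 hρ h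
  obtain ⟨r1, r2⟩ := G_N_rel ρ h3 hρ g h
  obtain ⟨r3, r4⟩ := G_N_rel ρ h3 hρ h g
  have ea : ρ g = 1 + (ρ g - 1) := by abel
  have eb : ρ h = 1 + (ρ h - 1) := by abel
  generalize ρ g - 1 = a at *
  generalize ρ h - 1 = b at *
  rw [ea, eb]
  have : (1 + a) * (1 + b) * (1 - a) * (1 - b) = 1 - a * b + 3 * (a * b) - (a * b + b * a)
     - a * a + a * a * b - b * b + b * a * b - a * b * a - a * (b * b) + (a * b * a) * b := by
    noncomm_ring
  rw [this, h3, r1, haa, hbb, r2, r4]
  simp

theorem G_rho_gen (g h k l : G) : Commute (ρ ⁅g, h⁆) (ρ ⁅k, l⁆) := by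
  rw [G_rho_comm ρ h3 hρ, G_rho_comm ρ h3 hρ]
  have f1 : ∀ u v : G, (ρ u - 1) * (ρ v - 1) = - ((ρ v - 1) * (ρ u - 1)) := by
    intro u v
    exact eq_neg_of_add_eq_zero_left (G_N_rel ρ h3 hρ u v).1
  have key : ((ρ g - 1) * (ρ h - 1)) * ((ρ k - 1) * (ρ l - 1)) =
      ((ρ k - 1) * (ρ l - 1)) * ((ρ g - 1) * (ρ h - 1)) := by
    have a1 := f1 h k
    have a2 := f1 g k
    have a3 := f1 h l
    have a4 := f1 g l
    generalize ρ g - 1 = a at *
    generalize ρ h - 1 = b at *
    generalize ρ k - 1 = c at *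
    generalize ρ l - 1 = d at *
    calc a * b * (c * d) = a * (b * c) * d := by noncomm_ring
      _ = - ((a * c) * (b * d)) := by rw [a1]; noncomm_ring
      _ = - ((c * a) * (d * b)) := by rw [a2, a3]; noncomm_ring
      _ = - (c * (a * d) * b) := by noncomm_ring
      _ = c * d * (a * b) := by rw [a4]; noncomm_ring
  have c1 : Commute ((ρ g - 1) * (ρ h - 1)) ((ρ k - 1) * (ρ l - 1)) := key
  exact ((Commute.one_left _).sub_left ((Commute.one_right _).sub_right c1))

theorem G_rho_all (u v : G) (hu : u ∈ commutator G) (hv : v ∈ commutator G) :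
    Commute (ρ u) (ρ v) := by
  rw [commutator_eq_closure] at hu hv
  induction hu using Subgroup.closure_induction with
  | mem u hu =>
    obtain ⟨g, h, rfl⟩ := hu
    induction hv using Subgroup.closure_induction with
    | mem v hv =>
      obtain ⟨k, l, rfl⟩ := hv
      exact G_rho_gen ρ h3 hρ g h k l
    | one => rw [map_one]; exact Commute.one_right _
    | mul x y _ _ hx hy => rw [map_mul]; exact hx.mul_right hy
    | inv x _ hx =>
      rw [G_rho_inv ρ h3 hρ]
      exact (Commute.one_right _).sub_right (hx.sub_right (Commute.one_right _))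
  | one => rw [map_one]; exact Commute.one_left _
  | mul x y _ _ hx hy => rw [map_mul]; exact hx.mul_left hy
  | inv x _ hx =>
    rw [G_rho_inv ρ h3 hρ]
    exact (Commute.one_left _).sub_left (hx.sub_left (Commute.one_left _))

theorem G_rho_comm_one (u v : G) (hu : u ∈ commutator G) (hv : v ∈ commutator G) :
    ρ ⁅u, v⁆ = 1 := by
  have hc := G_rho_all ρ h3 hρ u v hu hv
  rw [commutatorElement_def, map_mul, map_mul, map_mul, hc.eq]
  have h1 : ρ u * ρ u⁻¹ = 1 := by rw [← map_mul]; simp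
  have h2 : ρ v * ρ v⁻¹ = 1 := by rw [← map_mul]; simp
  calc ρ v * ρ u * ρ u⁻¹ * ρ v⁻¹ = ρ v * (ρ u * ρ u⁻¹) * ρ v⁻¹ := by noncomm_ring
    _ = 1 := by rw [h1, mul_one, h2]

end ring

theorem G_e3_central (G : Type) [Group G] (h : ∀ g : G, g ^ 3 = 1) (u v : G)
    (hu : u ∈ commutator G) (hv : v ∈ commutator G) (x : G) : ⁅u, v⁆ * x = x * ⁅u, v⁆ := by
  let A : Subgroup G := Subgroup.normalClosure {x}
  have hxA : x ∈ A := Subgroup.subset_normalClosure (Set.mem_singleton x)
  have hS : ∀ a ∈ Group.conjugatesOfSet ({x} : Set G), ∀ b ∈ Group.conjugatesOfSet ({x} : Set G),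
      a * b = b * a := by
    intro a ha b hb
    rw [Group.mem_conjugatesOfSet_iff] at ha hb
    obtain ⟨x1, hx1, ha⟩ := ha
    obtain ⟨x2, hx2, hb⟩ := hb
    rw [Set.mem_singleton_iff] at hx1 hx2
    rw [hx1] at ha
    rw [hx2] at hb
    rw [isConj_iff] at ha hb
    obtain ⟨c, rfl⟩ := ha
    obtain ⟨d, rfl⟩ := hb
    have := G_e3_comm h (c * x * c⁻¹) (d * c⁻¹)
    have e : (d * c⁻¹) * (c * x * c⁻¹) * (d * c⁻¹)⁻¹ = d * x * d⁻¹ := by group
    rw [e] at this
    exact this
  have h1 : A ≤ Subgroup.centralizer (Group.conjugatesOfSet ({x} : Set G)) := by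
    refine (Subgroup.closure_le _).2 ?_
    intro a ha
    exact Subgroup.mem_centralizer_iff.2 (fun b hb => hS b hb a ha)
  have h2 : A ≤ Subgroup.centralizer (A : Set G) := by
    refine (Subgroup.closure_le _).2 ?_
    intro a ha
    exact Subgroup.mem_centralizer_iff.2 (fun b hb =>
      ((Subgroup.mem_centralizer_iff.1 (h1 hb)) a ha).symm)
  let _ : CommGroup A := { (inferInstance : Group A) with
    mul_comm := fun a b => Subtype.ext ((Subgroup.mem_centralizer_iff.1 (h2 b.2)) a.1 a.2) }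
  let ρ : G →* AddMonoid.End (Additive A) :=
    { toFun := fun g => MonoidHom.toAdditive ((MulAut.conjNormal g : MulAut A).toMonoidHom)
      map_one' := by
        refine AddMonoidHom.ext fun a => ?_
        apply Additive.toMul.injective
        apply Subtype.ext
        change (1 : G) * (a.toMul : G) * (1 : G)⁻¹ = (a.toMul : G)
        simp
      map_mul' := fun g k => by
        refine AddMonoidHom.ext fun a => ?_
        apply Additive.toMul.injective
        apply Subtype.ext
        change (g * k) * (a.toMul : G) * (g * k)⁻¹ = g * (k * (a.toMul : G) * k⁻¹) * g⁻¹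
        group }
  have hρ0 : ∀ (g : G) (a : Additive A), ((ρ g a).toMul : G) = g * (a.toMul : G) * g⁻¹ := by
    intro g a
    exact MulAut.conjNormal_apply g a.toMul
  have h3 : (3 : AddMonoid.End (Additive A)) = 0 := by
    have e : (3 : AddMonoid.End (Additive A)) = 1 + 1 + 1 := by norm_num
    rw [e]
    refine AddMonoidHom.ext fun a => ?_
    apply Additive.toMul.injective
    apply Subtype.ext
    change (a.toMul : G) * (a.toMul : G) * (a.toMul : G) = 1
    have := h (a.toMul : G)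
    rwa [pow_succ, pow_two] at this
  have hρ : ∀ g, ρ g * ρ g + ρ g + 1 = 0 := by
    intro g
    refine AddMonoidHom.ext fun a => ?_
    apply Additive.toMul.injective
    apply Subtype.ext
    change (g * (g * (a.toMul : G) * g⁻¹) * g⁻¹) * (g * (a.toMul : G) * g⁻¹) * (a.toMul : G) = 1
    generalize (a.toMul : G) = y
    have h1 := G_e3_conj h y g
    have h4 := G_e3_inv h g
    have h5 : g * g = g⁻¹ := by
      have := G_e3_inv h g⁻¹
      simpa using this
    have e1 : g * (g * y * g⁻¹) * g⁻¹ = g⁻¹ * y * g := by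
      calc g * (g * y * g⁻¹) * g⁻¹ = (g * g) * y * (g⁻¹ * g⁻¹) := by group
        _ = g⁻¹ * y * g := by rw [h4, h5]
    rw [e1]
    have h2 := G_e3_conj h y g⁻¹
    rw [inv_inv] at h2
    -- y * (g⁻¹ y g) * (g y g⁻¹) = 1
    have e2 : (g⁻¹ * y * g) * (g * y * g⁻¹) = y⁻¹ := by
      rw [mul_assoc] at h2
      exact (inv_eq_of_mul_eq_one_right h2).symm
    rw [e2, inv_mul_cancel]
  have hfin := G_rho_comm_one ρ h3 hρ u v hu hv
  have e := hρ0 ⁅u, v⁆ (Additive.ofMul (⟨x, hxA⟩ : A))
  rw [hfin] at e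
  have e' : x = ⁅u, v⁆ * x * ⁅u, v⁆⁻¹ := e
  exact (eq_mul_inv_iff_mul_eq.1 e').symm

theorem exp_three_soluble (G : Type) [Group G] (h : ∀ g : G, g ^ 3 = 1) : IsSolvable G := by
  have h2 : ⁅commutator G, commutator G⁆ ≤ Subgroup.center G := by
    rw [Subgroup.commutator_le]
    intro u hu v hv
    rw [Subgroup.mem_center_iff]
    intro x
    exact (G_e3_central G h u v hu hv x).symm
  refine ⟨⟨3, ?_⟩⟩
  have e2 : derivedSeries G 2 = ⁅commutator G, commutator G⁆ := by
    rw [derivedSeries_succ, derivedSeries_one]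
  rw [derivedSeries_succ, e2]
  rw [Subgroup.commutator_eq_bot_iff_le_centralizer]
  intro a ha
  rw [Subgroup.mem_centralizer_iff]
  intro b hb
  exact (Subgroup.mem_center_iff.1 (h2 ha)) b

theorem res_finite_soluble (p : ℕ) (hp : p.Prime) (G : Type) [Group G] (h : ∀ g : G, g ^ p = 1)
    (hres : ∀ g : G, g ≠ 1 → ∃ N : Subgroup G, N.Normal ∧ N.FiniteIndex ∧ g ∉ N) :
    ∀ g : G, g ≠ 1 → ∃ N : Subgroup G, ∃ _ : N.Normal, g ∉ N ∧ IsSolvable (G ⧸ N) := by
  intro g hg
  obtain ⟨N, hN, hfin, hgN⟩ := hres g hg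
  refine ⟨N, hN, hgN, ?_⟩
  haveI : Fact p.Prime := ⟨hp⟩
  haveI : Finite (G ⧸ N) := Subgroup.finite_quotient_of_finiteIndex
  have hP : IsPGroup p (G ⧸ N) := by
    intro x
    refine ⟨1, ?_⟩
    induction x using QuotientGroup.induction_on with
    | H y =>
      rw [pow_one, ← QuotientGroup.mk_pow, h y]
      rfl
  haveI := hP.isNilpotent
  exact (inferInstance : Group.IsSolvable (G ⧸ N))

-- TARGET:

theorem main (p : ℕ) (hp : p.Prime) (G : Type) [Group G] (hexp : ∀ g : G, g ^ p = 1) (A : Subgroup G)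
    (hA : ∀ a ∈ A, ∀ b ∈ A, a * b = b * a) (hprop : A ≠ ⊤) (hcov : Covers G A) :
    5 ≤ p ∧ derivedSeries G 2 = derivedSeries G 1 ∧ derivedSeries G 1 ≠ ⊥ ∧
    (∀ n, A ⊔ derivedSeries G n = ⊤) ∧
    ¬ (∀ g : G, g ≠ 1 → ∃ N : Subgroup G, N.Normal ∧ N.FiniteIndex ∧ g ∉ N) := by
  have h1 : ∀ n, derivedSeries G n ≠ ⊥ := fun n hn => hprop (covers_soluble n G A hn hcov hA)
  have hns : ¬ IsSolvable G := by
    intro hs
    obtain ⟨n, hn⟩ := (isSolvable_def G).1 hs
    exact h1 n hn
  refine ⟨?_, covers_perfect G A hcov hA, h1 1, covers_sup_derived G A hcov hA, ?_⟩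
  · by_contra hlt
    push Not at hlt
    have h2 : 2 ≤ p := hp.two_le
    have hcases : p = 2 ∨ p = 3 ∨ p = 4 := by omega
    rcases hcases with rfl | rfl | rfl
    · apply hns
      have hinv : ∀ g : G, g⁻¹ = g := by
        intro g
        have := hexp g
        rw [pow_two] at this
        exact inv_eq_of_mul_eq_one_left this
      have hcomm : ∀ a b : G, a * b = b * a := by
        intro a b
        have h3 := hinv (a * b)
        rw [mul_inv_rev, hinv a, hinv b] at h3
        exact h3.symm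
      exact isSolvable_of_comm hcomm
    · exact hns (exp_three_soluble G hexp)
    · exact absurd hp (by norm_num)
  · intro hres
    exact hprop (covers_residually_soluble G A hcov hA (res_finite_soluble p hp G hexp hres))

end Pool.Agent.Helper877.Cov
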